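import Mathlib

set_option autoImplicit false
set_option linter.unusedSectionVars false

/-! # Spanning paths of a complete graph, in cyclic coordinates -/

namespace Pool.Agent.R39.PathAut

open Finset

variable {n : ℕ} [NeZero n] {V : Type} [DecidableEq V]

/-- the `k`-th edge of the cyclic order `x` -/
def ed (x : ZMod n ≃ V) (k : ZMod n) : Sym2 V := s(x k, x (k + 1))

/-- the cyclic order `x` without the edges `k` and `l` -/
def M (x : ZMod n ≃ V) (k l : ZMod n) : Finset (Sym2 V) := ((univ.erase k).erase l).image (ed x)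

/-- the spanning path obtained from the cyclic order `x` by deleting the edge `k` -/
def Q (x : ZMod n ≃ V) (k : ZMod n) : Finset (Sym2 V) := (univ.erase k).image (ed x)

/-- spanning paths -/
def IsP (n : ℕ) [NeZero n] (V : Type) [DecidableEq V] (E : Finset (Sym2 V)) : Prop :=
  ∃ (x : ZMod n ≃ V) (k : ZMod n), E = Q x k

lemma small_ne {m : ℕ} (h0 : 0 < m) (hm : m < n) : (m : ZMod n) ≠ 0 := by
  intro h
  rw [ZMod.natCast_eq_zero_iff] at h
  exact absurd (Nat.le_of_dvd h0 h) (by omega)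

lemma one_ne' (hn : 5 ≤ n) : (1 : ZMod n) ≠ 0 := by
  have := small_ne (n := n) (m := 1) (by omega) (by omega)
  simpa using this

lemma two_ne' (hn : 5 ≤ n) : (2 : ZMod n) ≠ 0 := by
  have := small_ne (n := n) (m := 2) (by omega) (by omega)
  simpa using this

lemma three_ne' (hn : 5 ≤ n) : (3 : ZMod n) ≠ 0 := by
  have := small_ne (n := n) (m := 3) (by omega) (by omega)
  simpa using this

lemma four_ne' (hn : 5 ≤ n) : (4 : ZMod n) ≠ 0 := by
  have := small_ne (n := n) (m := 4) (by omega) (by omega)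
  simpa using this

lemma mem_ed (x : ZMod n ≃ V) (j k : ZMod n) : x j ∈ ed x k ↔ j = k ∨ j = k + 1 := by
  unfold ed
  rw [Sym2.mem_iff, x.apply_eq_iff_eq, x.apply_eq_iff_eq]

lemma ed_inj (hn : 5 ≤ n) (x : ZMod n ≃ V) {j k : ZMod n} : ed x j = ed x k ↔ j = k := by
  constructor
  · intro h
    unfold ed at h
    rw [Sym2.eq_iff] at h
    rcases h with ⟨h1, _⟩ | ⟨h1, h2⟩
    · exact x.injective h1
    · exfalso
      have e1 := x.injective h1
      have e2 := x.injective h2
      rw [e1] at e2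
      apply two_ne' hn
      linear_combination e2
  · rintro rfl
    rfl

lemma ed_injective (hn : 5 ≤ n) (x : ZMod n ≃ V) : Function.Injective (ed x) :=
  fun _ _ h => (ed_inj hn x).1 h

lemma mem_Q {x : ZMod n ≃ V} {k : ZMod n} {e : Sym2 V} : e ∈ Q x k ↔ ∃ j, j ≠ k ∧ ed x j = e := by
  unfold Q
  simp

lemma mem_M {x : ZMod n ≃ V} {k l : ZMod n} {e : Sym2 V} :
    e ∈ M x k l ↔ ∃ j, j ≠ k ∧ j ≠ l ∧ ed x j = e := by
  unfold M
  simp [and_assoc, and_left_comm]

lemma M_comm (x : ZMod n ≃ V) (k l : ZMod n) : M x k l = M x l k := by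
  ext e
  rw [mem_M, mem_M]
  constructor <;> rintro ⟨j, h1, h2, h3⟩ <;> exact ⟨j, h2, h1, h3⟩

lemma card_Q (hn : 5 ≤ n) (x : ZMod n ≃ V) (k : ZMod n) : (Q x k).card = n - 1 := by
  unfold Q
  rw [card_image_of_injective _ (ed_injective hn x), card_erase_of_mem (mem_univ _), card_univ,
    ZMod.card]

lemma card_M (hn : 5 ≤ n) (x : ZMod n ≃ V) {k l : ZMod n} (hkl : k ≠ l) :
    (M x k l).card = n - 2 := by
  unfold M
  rw [card_image_of_injective _ (ed_injective hn x), card_erase_of_mem, card_erase_of_mem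
    (mem_univ _), card_univ, ZMod.card]
  · omega
  · rw [mem_erase]
    exact ⟨hkl.symm, mem_univ _⟩

lemma ed_mem_Q (hn : 5 ≤ n) {x : ZMod n ≃ V} {j k : ZMod n} : ed x j ∈ Q x k ↔ j ≠ k := by
  rw [mem_Q]
  constructor
  · rintro ⟨i, hi, hij⟩
    rw [ed_inj hn] at hij
    rw [← hij]
    exact hi
  · intro h
    exact ⟨j, h, rfl⟩

lemma ed_mem_M (hn : 5 ≤ n) {x : ZMod n ≃ V} {j k l : ZMod n} :
    ed x j ∈ M x k l ↔ j ≠ k ∧ j ≠ l := by
  rw [mem_M]
  constructor
  · rintro ⟨i, hi, hi2, hij⟩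
    rw [ed_inj hn] at hij
    rw [← hij]
    exact ⟨hi, hi2⟩
  · intro h
    exact ⟨j, h.1, h.2, rfl⟩

lemma Q_eq_insert (x : ZMod n ≃ V) {k l : ZMod n} (hkl : k ≠ l) :
    Q x k = insert (ed x l) (M x k l) := by
  ext e
  rw [mem_insert, mem_Q, mem_M]
  constructor
  · rintro ⟨j, h1, h2⟩
    by_cases hj : j = l
    · left
      rw [← h2, hj]
    · right
      exact ⟨j, h1, hj, h2⟩
  · rintro (h | ⟨j, h1, _, h3⟩)
    · exact ⟨l, hkl.symm, h.symm⟩
    · exact ⟨j, h1, h3⟩

lemma Q_inj (hn : 5 ≤ n) {x : ZMod n ≃ V} {k l : ZMod n} : Q x k = Q x l ↔ k = l := by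
  constructor
  · intro h
    by_contra hne
    have h1 : ed x l ∈ Q x k := (ed_mem_Q hn).2 (Ne.symm hne)
    rw [h, ed_mem_Q hn] at h1
    exact h1 rfl
  · rintro rfl
    rfl

/-- no three edges of a path share a vertex -/
lemma IsP.deg {E : Finset (Sym2 V)} (h : IsP n V E) {v : V} {a b c : Sym2 V}
    (ha : a ∈ E) (hb : b ∈ E) (hc : c ∈ E) (hva : v ∈ a) (hvb : v ∈ b) (hvc : v ∈ c)
    (hab : a ≠ b) (hac : a ≠ c) (hbc : b ≠ c) : False := by
  obtain ⟨x, k, rfl⟩ := h
  obtain ⟨i, _, rfl⟩ := mem_Q.1 ha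
  obtain ⟨j, _, rfl⟩ := mem_Q.1 hb
  obtain ⟨l, _, rfl⟩ := mem_Q.1 hc
  obtain ⟨m, rfl⟩ := x.surjective v
  rw [mem_ed] at hva hvb hvc
  have h1 : i ≠ j := fun h => hab (by rw [h])
  have h2 : i ≠ l := fun h => hac (by rw [h])
  have h3 : j ≠ l := fun h => hbc (by rw [h])
  rcases hva with h4 | h4 <;> rcases hvb with h5 | h5 <;> rcases hvc with h6 | h6
  · exact h1 (h4.symm.trans h5)
  · exact h1 (h4.symm.trans h5)
  · exact h2 (h4.symm.trans h6)
  · exact h3 (add_right_cancel (h5.symm.trans h6))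
  · exact h3 (h5.symm.trans h6)
  · exact h2 (add_right_cancel (h4.symm.trans h6))
  · exact h1 (add_right_cancel (h4.symm.trans h5))
  · exact h1 (add_right_cancel (h4.symm.trans h5))

/-- edges of a path are not loops -/
lemma IsP.not_diag (hn : 5 ≤ n) {E : Finset (Sym2 V)} (h : IsP n V E) {a b : V}
    (hab : s(a, b) ∈ E) : a ≠ b := by
  obtain ⟨x, k, rfl⟩ := h
  obtain ⟨i, _, hi⟩ := mem_Q.1 hab
  rintro rfl
  unfold ed at hi
  rw [Sym2.eq_iff] at hi
  have h1 : x i = x (i + 1) := by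
    rcases hi with ⟨h1, h2⟩ | ⟨h1, h2⟩ <;> rw [h1, h2]
  have h2 := x.injective h1
  apply one_ne' hn
  linear_combination -h2

/-- a path contains no cycle -/
lemma IsP.acyclic (hn : 5 ≤ n) {E : Finset (Sym2 V)} (h : IsP n V E) {F : Finset (Sym2 V)}
    (hF : F ⊆ E) (hne : F.Nonempty) :
    ∃ v, ∃ e ∈ F, v ∈ e ∧ ∀ e' ∈ F, v ∈ e' → e' = e := by
  obtain ⟨x, k, rfl⟩ := h
  have hex : ∃ i : ℕ, ed x (k + 1 + (i : ZMod n)) ∈ F := by
    obtain ⟨e, he⟩ := hne
    obtain ⟨j, _, rfl⟩ := mem_Q.1 (hF he)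
    refine ⟨(j - k - 1).val, ?_⟩
    rw [ZMod.natCast_zmod_val]
    have : k + 1 + (j - k - 1) = j := by ring
    rw [this]
    exact he
  classical
  obtain ⟨i, hi, hmin⟩ : ∃ i : ℕ, ed x (k + 1 + (i : ZMod n)) ∈ F ∧
      ∀ j < i, ed x (k + 1 + (j : ZMod n)) ∉ F :=
    ⟨Nat.find hex, Nat.find_spec hex, fun j hj => Nat.find_min hex hj⟩
  refine ⟨x (k + 1 + i), _, hi, (mem_ed x _ _).2 (Or.inl rfl), ?_⟩
  intro e' he' hv
  obtain ⟨j, hj, rfl⟩ := mem_Q.1 (hF he')
  rw [mem_ed] at hv
  rcases hv with hv | hv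
  · rw [← hv]
  · exfalso
    rcases Nat.eq_zero_or_pos i with h0 | h0
    · subst h0
      apply hj
      have : k + 1 = j + 1 := by simpa using hv
      exact (add_right_cancel this).symm
    · apply hmin (i - 1) (by omega)
      have h1 : ((i - 1 : ℕ) : ZMod n) + 1 = (i : ZMod n) := by
        have : (i - 1) + 1 = i := by omega
        exact_mod_cast congrArg (Nat.cast : ℕ → ZMod n) this
      have h2 : k + 1 + ((i - 1 : ℕ) : ZMod n) = j := by
        apply add_right_cancel (b := 1)
        rw [← hv, ← h1]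
        ring
      rw [h2]
      exact he'

/-- closing a segment of the cyclic order creates a cycle -/
lemma IsP.no_closed (hn : 5 ≤ n) {E : Finset (Sym2 V)} (h : IsP n V E) (x : ZMod n ≃ V)
    (a : ZMod n) (m : ℕ) (hm : 1 ≤ m) (hseg : ∀ i < m, ed x (a + (i : ZMod n)) ∈ E)
    (hc : s(x a, x (a + (m : ZMod n))) ∈ E)
    (hnew : ∀ i < m, ed x (a + (i : ZMod n)) ≠ s(x a, x (a + (m : ZMod n)))) : False := by
  classical
  obtain ⟨v, e, he, hve, huniq⟩ := h.acyclic hn
    (F := insert s(x a, x (a + (m : ZMod n)))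
      ((range m).image (fun i : ℕ => ed x (a + (i : ZMod n))))) (by
      intro f hf
      rw [mem_insert, mem_image] at hf
      rcases hf with hf | ⟨i, hi, rfl⟩
      · rw [hf]
        exact hc
      · exact hseg i (mem_range.1 hi)) ⟨_, mem_insert_self _ _⟩
  have hcF : s(x a, x (a + (m : ZMod n))) ∈ insert s(x a, x (a + (m : ZMod n)))
      ((range m).image (fun i : ℕ => ed x (a + (i : ZMod n)))) := mem_insert_self _ _
  have hsF : ∀ i < m, ed x (a + (i : ZMod n)) ∈ insert s(x a, x (a + (m : ZMod n)))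
      ((range m).image (fun i : ℕ => ed x (a + (i : ZMod n)))) := by
    intro i hi
    rw [mem_insert]
    right
    rw [mem_image]
    exact ⟨i, mem_range.2 hi, rfl⟩
  have hva : v = x a → False := by
    intro hv
    have h1 := huniq _ hcF (by rw [hv]; exact Sym2.mem_mk_left _ _)
    have h2 := huniq _ (hsF 0 (by omega)) (by
      rw [hv, mem_ed]
      left
      simp)
    exact hnew 0 (by omega) (h2.trans h1.symm)
  have hvm : v = x (a + (m : ZMod n)) → False := by
    intro hv
    have h1 := huniq _ hcF (by rw [hv]; exact Sym2.mem_mk_right _ _)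
    have h2 := huniq _ (hsF (m - 1) (by omega)) (by
      rw [hv, mem_ed]
      right
      have : (m - 1) + 1 = m := by omega
      have h3 : ((m - 1 : ℕ) : ZMod n) + 1 = (m : ZMod n) := by
        exact_mod_cast congrArg (Nat.cast : ℕ → ZMod n) this
      rw [← h3]
      ring)
    exact hnew (m - 1) (by omega) (h2.trans h1.symm)
  rw [mem_insert, mem_image] at he
  rcases he with he | ⟨i, hi, rfl⟩
  · rw [he, Sym2.mem_iff] at hve
    rcases hve with hv | hv
    · exact hva hv
    · exact hvm hv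
  · rw [mem_range] at hi
    unfold ed at hve
    rw [Sym2.mem_iff] at hve
    rcases hve with hv | hv
    · rcases Nat.eq_zero_or_pos i with h0 | h0
      · subst h0
        apply hva
        rw [hv]
        simp
      · have h1 : ((i - 1 : ℕ) : ZMod n) + 1 = (i : ZMod n) := by
          have : (i - 1) + 1 = i := by omega
          exact_mod_cast congrArg (Nat.cast : ℕ → ZMod n) this
        have h2 := huniq _ (hsF (i - 1) (by omega)) (by
          rw [hv, mem_ed]
          right
          rw [← h1]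
          ring)
        rw [ed_inj hn] at h2
        apply one_ne' hn
        have h3 := add_left_cancel h2
        linear_combination h1 - h3
    · by_cases him : i + 1 = m
      · apply hvm
        rw [hv, ← him]
        congr 1
        push_cast
        ring
      · have h2 := huniq _ (hsF (i + 1) (by omega)) (by
          rw [hv, mem_ed]
          left
          push_cast
          ring)
        rw [ed_inj hn] at h2
        apply one_ne' hn
        have h3 := add_left_cancel h2
        push_cast at h3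
        linear_combination h3

end Pool.Agent.R39.PathAut
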