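import Mathlib
import Pool.Agent.R39.PathAut.Basic

set_option autoImplicit false
set_option linter.unusedSectionVars false

/-! # Neighbours of a path -/

namespace Pool.Agent.R39.PathAut

open Finset

variable {n : ℕ} [NeZero n] {V : Type} [DecidableEq V]

/-- which edge can be added to a path with one edge removed -/
lemma flem (hn : 5 ≤ n) (x : ZMod n ≃ V) {k l : ZMod n} (hkl : k ≠ l) {c : Sym2 V}
    (hc : c ∉ M x k l) (h : IsP n V (insert c (M x k l))) :
    c = ed x k ∨ c = ed x l ∨ c = s(x k, x l) ∨ c = s(x (k + 1), x (l + 1)) := by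
  -- end points
  have hend : ∀ v, v ∈ c → v = x k ∨ v = x (k + 1) ∨ v = x l ∨ v = x (l + 1) := by
    intro v hv
    by_contra hno
    push Not at hno
    obtain ⟨h1, h2, h3, h4⟩ := hno
    obtain ⟨j, rfl⟩ := x.surjective v
    have g1 : j ≠ k := fun h => h1 (by rw [h])
    have g2 : j ≠ k + 1 := fun h => h2 (by rw [h])
    have g3 : j ≠ l := fun h => h3 (by rw [h])
    have g4 : j ≠ l + 1 := fun h => h4 (by rw [h])
    have m1 : ed x j ∈ M x k l := (ed_mem_M hn).2 ⟨g1, g3⟩
    have m2 : ed x (j - 1) ∈ M x k l := by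
      refine (ed_mem_M hn).2 ⟨?_, ?_⟩
      · intro h
        apply g2
        rw [← h]
        ring
      · intro h
        apply g4
        rw [← h]
        ring
    refine h.deg (v := x j) (mem_insert_self c _) (mem_insert_of_mem m1) (mem_insert_of_mem m2)
      hv ((mem_ed x _ _).2 (Or.inl rfl)) ((mem_ed x _ _).2 (Or.inr (by ring))) ?_ ?_ ?_
    · rintro rfl
      exact hc m1
    · rintro rfl
      exact hc m2
    · rw [Ne, ed_inj hn]
      intro h
      apply one_ne' hn
      linear_combination h
  -- closing a segment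
  have hclose : ∀ k l : ZMod n, k ≠ l → c ∉ M x k l → IsP n V (insert c (M x k l)) →
      c ≠ s(x (k + 1), x l) := by
    intro k l hkl hc h hcl
    by_cases hadj : k + 1 = l
    · rw [hadj] at hcl
      have h1 : s(x l, x l) ∈ insert c (M x k l) := by
        rw [← hcl]
        exact mem_insert_self _ _
      exact h.not_diag hn h1 rfl
    · have hval : ((l - (k + 1)).val : ZMod n) = l - (k + 1) := ZMod.natCast_zmod_val _
      have hpos : 1 ≤ (l - (k + 1)).val := by
        rcases Nat.eq_zero_or_pos (l - (k + 1)).val with h0 | h0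
        · exfalso
          rw [h0] at hval
          apply hadj
          have : (0 : ZMod n) = l - (k + 1) := by simpa using hval
          linear_combination this
        · exact h0
      have hend2 : k + 1 + ((l - (k + 1)).val : ZMod n) = l := by
        rw [hval]
        ring
      have hlt : (l - (k + 1)).val < n := ZMod.val_lt _
      have hin : ∀ i < (l - (k + 1)).val, ed x (k + 1 + (i : ZMod n)) ∈ M x k l := by
        intro i hi
        refine (ed_mem_M hn).2 ⟨?_, ?_⟩
        · intro h2
          apply small_ne (n := n) (m := i + 1) (by omega) (by omega)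
          push_cast
          linear_combination h2
        · intro h2
          rw [← hend2] at h2
          have h3 := add_left_cancel h2
          apply small_ne (n := n) (m := (l - (k + 1)).val - i) (by omega) (by omega)
          have h4 : ((((l - (k + 1)).val - i : ℕ)) : ZMod n) + (i : ZMod n) =
              ((l - (k + 1)).val : ZMod n) := by
            have : ((l - (k + 1)).val - i) + i = (l - (k + 1)).val := by omega
            exact_mod_cast congrArg (Nat.cast : ℕ → ZMod n) this
          linear_combination h4 - h3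
      refine h.no_closed hn x (k + 1) ((l - (k + 1)).val) hpos
        (fun i hi => mem_insert_of_mem (hin i hi)) ?_ ?_
      · rw [hend2, ← hcl]
        exact mem_insert_self _ _
      · intro i hi
        rw [hend2, ← hcl]
        intro h2
        apply hc
        rw [← h2]
        exact hin i hi
  induction c using Sym2.ind with
  | _ u v =>
    have hne : u ≠ v := h.not_diag hn (mem_insert_self _ _)
    have h1 := hclose k l hkl hc h
    have h2 := hclose l k hkl.symm (by rw [M_comm]; exact hc) (by rw [M_comm]; exact h)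
    have hu := hend u (Sym2.mem_mk_left _ _)
    have hv := hend v (Sym2.mem_mk_right _ _)
    rcases hu with hu | hu | hu | hu <;> rcases hv with hv | hv | hv | hv <;>
      rw [hu, hv] at hne h1 h2 ⊢
    · exact (hne rfl).elim
    · exact Or.inl rfl
    · exact Or.inr (Or.inr (Or.inl rfl))
    · exact (h2 Sym2.eq_swap).elim
    · exact Or.inl Sym2.eq_swap
    · exact (hne rfl).elim
    · exact (h1 rfl).elim
    · exact Or.inr (Or.inr (Or.inr rfl))
    · exact Or.inr (Or.inr (Or.inl Sym2.eq_swap))
    · exact (h1 Sym2.eq_swap).elim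
    · exact (hne rfl).elim
    · exact Or.inr (Or.inl rfl)
    · exact (h2 rfl).elim
    · exact Or.inr (Or.inr (Or.inr Sym2.eq_swap))
    · exact Or.inr (Or.inl Sym2.eq_swap)
    · exact (hne rfl).elim

/-- adjacency in the path graph -/
def Ad (n : ℕ) {V : Type} [DecidableEq V] (A B : Finset (Sym2 V)) : Prop :=
  (A ∩ B).card = n - 2

lemma Ad.symm {A B : Finset (Sym2 V)} (h : Ad n A B) : Ad n B A := by
  unfold Ad at *
  rw [inter_comm]
  exact h

lemma IsP.card (hn : 5 ≤ n) {E : Finset (Sym2 V)} (h : IsP n V E) : E.card = n - 1 := by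
  obtain ⟨x, k, rfl⟩ := h
  exact card_Q hn x k

lemma Ad_insert {N : Finset (Sym2 V)} {c d : Sym2 V} (hN : N.card = n - 2)
    (hcd : c ≠ d) : Ad n (insert c N) (insert d N) := by
  unfold Ad
  have : insert c N ∩ insert d N = N := by
    ext e
    rw [mem_inter, mem_insert, mem_insert]
    constructor
    · rintro ⟨h1 | h1, h2 | h2⟩
      · exact (hcd (h1.symm.trans h2)).elim
      · exact h2
      · exact h1
      · exact h1
    · intro h
      exact ⟨Or.inr h, Or.inr h⟩
  rw [this, hN]

lemma not_Ad (hn : 5 ≤ n) {A B : Finset (Sym2 V)} (hA : A.card = n - 1) {a b : Sym2 V}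
    (ha : a ∈ A) (hb : b ∈ A) (hab : a ≠ b) (haB : a ∉ B) (hbB : b ∉ B) : ¬ Ad n A B := by
  intro h
  unfold Ad at h
  have h1 : A ∩ B ⊆ (A.erase a).erase b := by
    intro e he
    rw [mem_inter] at he
    rw [mem_erase, mem_erase]
    refine ⟨?_, ?_, he.1⟩
    · rintro rfl
      exact hbB he.2
    · rintro rfl
      exact haB he.2
  have h2 := card_le_card h1
  rw [card_erase_of_mem (by rw [mem_erase]; exact ⟨hab.symm, hb⟩), card_erase_of_mem ha, hA,
    h] at h2
  omega

lemma Ad.ne (hn : 5 ≤ n) {A B : Finset (Sym2 V)} (hA : A.card = n - 1) (h : Ad n A B) :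
    A ≠ B := by
  rintro rfl
  unfold Ad at h
  rw [inter_self, hA] at h
  omega

/-- the structure of adjacency -/
lemma Ad.elim (hn : 5 ≤ n) {A B : Finset (Sym2 V)} (hA : A.card = n - 1) (hB : B.card = n - 1)
    (h : Ad n A B) : ∃ a ∈ A, a ∉ B ∧ ∃ c, c ∉ A ∧ B = insert c (A.erase a) := by
  unfold Ad at h
  have h1 : (A \ B).card = 1 := by
    have := card_sdiff_add_card_inter A B
    omega
  have h2 : (B \ A).card = 1 := by
    have := card_sdiff_add_card_inter B A
    rw [inter_comm] at this
    omega
  obtain ⟨a, ha⟩ := card_eq_one.1 h1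
  obtain ⟨c, hc⟩ := card_eq_one.1 h2
  have ha1 : a ∈ A \ B := by rw [ha]; exact mem_singleton_self _
  have hc1 : c ∈ B \ A := by rw [hc]; exact mem_singleton_self _
  rw [mem_sdiff] at ha1 hc1
  refine ⟨a, ha1.1, ha1.2, c, hc1.2, ?_⟩
  ext e
  rw [mem_insert, mem_erase]
  constructor
  · intro he
    by_cases heA : e ∈ A
    · right
      refine ⟨?_, heA⟩
      rintro rfl
      exact ha1.2 he
    · left
      have : e ∈ B \ A := mem_sdiff.2 ⟨he, heA⟩
      rw [hc, mem_singleton] at this
      exact this
  · rintro (he | ⟨h3, h4⟩)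
    · rw [he]
      exact hc1.1
    · by_contra hno
      have : e ∈ A \ B := mem_sdiff.2 ⟨h4, hno⟩
      rw [ha, mem_singleton] at this
      exact h3 this

lemma Q_erase (hn : 5 ≤ n) (x : ZMod n ≃ V) {k l : ZMod n} (hkl : k ≠ l) :
    (Q x k).erase (ed x l) = M x k l := by
  rw [Q_eq_insert x hkl, erase_insert]
  rw [ed_mem_M hn]
  tauto

/-- neighbours of `Q x k` -/
lemma nbr (hn : 5 ≤ n) (x : ZMod n ≃ V) (k : ZMod n) {w : Finset (Sym2 V)} (hw : IsP n V w)
    (h : Ad n (Q x k) w) : ∃ l, l ≠ k ∧ ∃ c, c ∉ Q x k ∧ w = insert c (M x k l) ∧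
      (c = ed x k ∨ c = s(x k, x l) ∨ c = s(x (k + 1), x (l + 1))) := by
  obtain ⟨a, haQ, _, c, hcQ, rfl⟩ := h.elim hn (card_Q hn x k) (hw.card hn)
  obtain ⟨l, hl, rfl⟩ := mem_Q.1 haQ
  rw [Q_erase hn x hl.symm] at hw ⊢
  refine ⟨l, hl, c, hcQ, rfl, ?_⟩
  have hcM : c ∉ M x k l := by
    intro hc
    apply hcQ
    rw [Q_eq_insert x hl.symm]
    exact mem_insert_of_mem hc
  rcases flem hn x hl.symm hcM hw with h1 | h1 | h1 | h1
  · exact Or.inl h1
  · exfalso
    apply hcQ
    rw [h1]
    exact haQ
  · exact Or.inr (Or.inl h1)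
  · exact Or.inr (Or.inr h1)

lemma Q_eq_insert' (x : ZMod n ≃ V) {k l : ZMod n} (hkl : k ≠ l) :
    Q x l = insert (ed x k) (M x k l) := by
  rw [M_comm]
  exact Q_eq_insert x hkl.symm

lemma Ad_QQ (hn : 5 ≤ n) (x : ZMod n ≃ V) {k l : ZMod n} (hkl : k ≠ l) :
    Ad n (Q x k) (Q x l) := by
  rw [Q_eq_insert x hkl, Q_eq_insert' x hkl]
  apply Ad_insert (card_M hn x hkl)
  rw [Ne, ed_inj hn]
  exact hkl.symm

/-- the reversal of the segment from `k + 1` to `l` -/
def rho (k l j : ZMod n) : ZMod n :=
  if (j - (k + 1)).val ≤ (l - (k + 1)).val then k + 1 + l - j else j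

lemma rho_rho (k l j : ZMod n) : rho k l (rho k l j) = j := by
  unfold rho
  by_cases h : (j - (k + 1)).val ≤ (l - (k + 1)).val
  · rw [if_pos h]
    have h1 := ZMod.val_sub h
    have h2 : k + 1 + l - j - (k + 1) = l - (k + 1) - (j - (k + 1)) := by ring
    rw [h2, h1, if_pos (by omega)]
    ring
  · rw [if_neg h, if_neg h]

/-- the reversal of the segment from `k + 1` to `l`, as a permutation -/
def rhoE (k l : ZMod n) : Equiv.Perm (ZMod n) where
  toFun := rho k l
  invFun := rho k l
  left_inv := rho_rho k l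
  right_inv := rho_rho k l

lemma val_succ (hn : 5 ≤ n) (a : ZMod n) (h : a + 1 ≠ 0) : (a + 1).val = a.val + 1 := by
  have h1 : (1 : ZMod n).val = 1 := by
    have := ZMod.val_natCast_of_lt (n := n) (a := 1) (by omega)
    simpa using this
  have hlt := ZMod.val_lt a
  by_cases h2 : a.val + 1 < n
  · rw [ZMod.val_add_of_lt (by rw [h1]; exact h2), h1]
  · exfalso
    apply h
    have h3 : a.val + 1 = n := by omega
    have h4 : (a.val : ZMod n) + 1 = 0 := by
      have := congrArg (Nat.cast : ℕ → ZMod n) h3
      push_cast at this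
      rw [this, ZMod.natCast_self]
    rw [ZMod.natCast_zmod_val] at h4
    exact h4

/-- reversing a segment -/
lemma exists_switch (hn : 5 ≤ n) (x : ZMod n ≃ V) {k l : ZMod n} (hkl : k ≠ l) :
    ∃ y : ZMod n ≃ V, ed y k = s(x k, x l) ∧ ed y l = s(x (k + 1), x (l + 1)) ∧
      M y k l = M x k l := by
  have hlt := ZMod.val_lt (l - (k + 1))
  have hm : (l - (k + 1) + 1).val = (l - (k + 1)).val + 1 := by
    apply val_succ hn
    intro h
    apply hkl
    linear_combination -h
  have hm2 : (l - (k + 1)).val + 1 < n := by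
    rw [← hm]
    exact ZMod.val_lt _
  have hk : ¬ (k - (k + 1)).val ≤ (l - (k + 1)).val := by
    intro h
    have h1 : (k - (k + 1)).val + 1 = n := by
      by_contra hne
      have h2 := ZMod.val_lt (k - (k + 1))
      have h3 : (1 : ZMod n).val = 1 := by
        have := ZMod.val_natCast_of_lt (n := n) (a := 1) (by omega)
        simpa using this
      have h4 := ZMod.val_add_of_lt (a := k - (k + 1)) (b := 1) (by rw [h3]; omega)
      have h5 : k - (k + 1) + 1 = 0 := by ring
      rw [h5, h3, ZMod.val_zero] at h4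
      omega
    omega
  have e1 : rho k l k = k := by
    unfold rho
    rw [if_neg hk]
  have e2 : rho k l (k + 1) = l := by
    unfold rho
    rw [sub_self, ZMod.val_zero, if_pos (Nat.zero_le _)]
    ring
  have e3 : rho k l l = k + 1 := by
    unfold rho
    rw [if_pos (le_refl _)]
    ring
  have e4 : rho k l (l + 1) = l + 1 := by
    unfold rho
    have : l + 1 - (k + 1) = l - (k + 1) + 1 := by ring
    rw [this, hm, if_neg (by omega)]
  refine ⟨(rhoE k l).trans x, ?_, ?_, ?_⟩
  · show s(x (rho k l k), x (rho k l (k + 1))) = _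
    rw [e1, e2]
  · show s(x (rho k l l), x (rho k l (l + 1))) = _
    rw [e3, e4]
  · apply eq_of_subset_of_card_le
    · intro e he
      obtain ⟨j, hj1, hj2, rfl⟩ := mem_M.1 he
      rw [mem_M]
      show ∃ i, i ≠ k ∧ i ≠ l ∧ ed x i = s(x (rho k l j), x (rho k l (j + 1)))
      have hs : (j + 1 - (k + 1)).val = (j - (k + 1)).val + 1 := by
        have h1 : j + 1 - (k + 1) = j - (k + 1) + 1 := by ring
        rw [h1]
        apply val_succ hn
        intro h
        apply hj1
        linear_combination h
      by_cases h : (j - (k + 1)).val ≤ (l - (k + 1)).val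
      · have h2 : (j - (k + 1)).val ≠ (l - (k + 1)).val := by
          intro h3
          apply hj2
          have := ZMod.val_injective n h3
          linear_combination this
        refine ⟨k + l - j, ?_, ?_, ?_⟩
        · intro h3
          apply hj2
          linear_combination -h3
        · intro h3
          apply hj1
          linear_combination -h3
        · unfold rho
          rw [if_pos h, if_pos (by rw [hs]; omega)]
          unfold ed
          rw [show k + 1 + l - j = k + l - j + 1 by ring,
            show k + 1 + l - (j + 1) = k + l - j by ring]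
          exact Sym2.eq_swap
      · refine ⟨j, hj1, hj2, ?_⟩
        unfold rho
        rw [if_neg h, if_neg (by rw [hs]; omega)]
        rfl
    · rw [card_M hn _ hkl, card_M hn _ hkl]

end Pool.Agent.R39.PathAut
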