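import Mathlib
import Pool.Agent.R39.PathAut.Nbr

set_option autoImplicit false
set_option linter.unusedSectionVars false

/-! # Common neighbours of adjacent paths -/

namespace Pool.Agent.R39.PathAut

open Finset

variable {n : ℕ} [NeZero n] {V : Type} [DecidableEq V]

lemma xne (hn : 5 ≤ n) (x : ZMod n ≃ V) (k : ZMod n) : x k ≠ x (k + 1) := by
  intro h
  have := x.injective h
  apply one_ne' hn
  linear_combination -this

/-- common neighbours of `Q x k` and a neighbour outside of the Hamilton cycle -/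
lemma lemB (hn : 5 ≤ n) (x : ZMod n ≃ V) {k l : ZMod n} (hkl : k ≠ l) {c : Sym2 V}
    (hc : c = s(x k, x l) ∨ c = s(x (k + 1), x (l + 1))) (hnew : ∀ j, c ≠ ed x j)
    {w : Finset (Sym2 V)} (hw : IsP n V w) (h1 : Ad n (Q x k) w)
    (h2 : Ad n w (insert c (M x k l))) :
    ∃ c', w = insert c' (M x k l) ∧ c' ≠ c ∧
      (c' = ed x k ∨ c' = s(x k, x l) ∨ c' = s(x (k + 1), x (l + 1))) := by
  obtain ⟨j, hj, c', hc'Q, rfl, hc'⟩ := nbr hn x k hw h1
  have hne1 := xne hn x k
  have hjl : j = l := by
    by_contra hjl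
    have hcc : c' ≠ c := by
      rcases hc' with h | h | h
      · rw [h]
        exact (hnew k).symm
      · rw [h]
        rcases hc with h' | h'
        · rw [h']
          intro h3
          rw [Sym2.eq_iff] at h3
          rcases h3 with ⟨_, h4⟩ | ⟨h4, _⟩
          · exact hjl (x.injective h4)
          · exact hkl (x.injective h4)
        · rw [h']
          intro h3
          rw [Sym2.eq_iff] at h3
          rcases h3 with ⟨h4, _⟩ | ⟨h4, _⟩
          · exact hne1 h4
          · apply hnew k
            rw [h', ← h4]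
            exact Sym2.eq_swap
      · rw [h]
        rcases hc with h' | h'
        · rw [h']
          intro h3
          rw [Sym2.eq_iff] at h3
          rcases h3 with ⟨h4, _⟩ | ⟨h4, _⟩
          · exact hne1 h4.symm
          · apply hnew k
            rw [h', ← h4]
            rfl
        · rw [h']
          intro h3
          rw [Sym2.eq_iff] at h3
          rcases h3 with ⟨_, h4⟩ | ⟨h4, _⟩
          · exact hjl (add_right_cancel (x.injective h4))
          · exact hkl (add_right_cancel (x.injective h4))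
    have hel : ed x l ∈ Q x k := (ed_mem_Q hn).2 hkl.symm
    refine not_Ad hn (hw.card hn) (a := c') (b := ed x l) (mem_insert_self _ _) ?_ ?_ ?_ ?_ h2
    · apply mem_insert_of_mem
      rw [ed_mem_M hn]
      exact ⟨hkl.symm, fun h => hjl h.symm⟩
    · rintro rfl
      exact hc'Q hel
    · rw [mem_insert]
      rintro (h | h)
      · exact hcc h
      · apply hc'Q
        rw [Q_eq_insert x hkl]
        exact mem_insert_of_mem h
    · rw [mem_insert]
      rintro (h | h)
      · exact hnew l h.symm
      · rw [ed_mem_M hn] at h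
        exact h.2 rfl
  subst hjl
  refine ⟨c', rfl, ?_, hc'⟩
  rintro rfl
  exact h2.ne hn (hw.card hn) rfl

/-- common neighbours of two members of a Hamilton cycle, outside of the cycle -/
lemma lemNC (hn : 5 ≤ n) (x : ZMod n ≃ V) {k l : ZMod n} (hkl : k ≠ l)
    {w : Finset (Sym2 V)} (hw : IsP n V w) (h1 : Ad n (Q x k) w) (h2 : Ad n (Q x l) w)
    (hout : ∀ j, w ≠ Q x j) :
    l ≠ k + 1 ∧ k ≠ l + 1 ∧ ∃ c, w = insert c (M x k l) ∧
      (c = s(x k, x l) ∨ c = s(x (k + 1), x (l + 1))) ∧ ∀ j, c ≠ ed x j := by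
  obtain ⟨j, hj, c, hcQ, rfl, hc⟩ := nbr hn x k hw h1
  have hck : c ≠ ed x k := by
    intro h
    apply hout j
    rw [h, Q_eq_insert' x hj.symm]
  have hnew : ∀ i, c ≠ ed x i := by
    intro i
    by_cases hi : i = k
    · rw [hi]
      exact hck
    · rintro rfl
      exact hcQ ((ed_mem_Q hn).2 hi)
  have hjl : j = l := by
    by_contra hjl
    refine not_Ad hn (hw.card hn) (a := c) (b := ed x l) (mem_insert_self _ _) ?_ ?_ ?_ ?_
      h2.symm
    · apply mem_insert_of_mem
      rw [ed_mem_M hn]
      exact ⟨hkl.symm, fun h => hjl h.symm⟩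
    · exact hnew l
    · rw [mem_Q]
      rintro ⟨i, _, hi⟩
      exact hnew i hi.symm
    · rw [ed_mem_Q hn]
      exact fun h => h rfl
  subst hjl
  have hc2 : c = s(x k, x j) ∨ c = s(x (k + 1), x (j + 1)) := by
    rcases hc with h | h
    · exact (hck h).elim
    · exact h
  refine ⟨?_, ?_, c, rfl, hc2, hnew⟩
  · intro h
    rcases hc2 with h3 | h3
    · apply hnew k
      rw [h3, h]
      rfl
    · apply hnew j
      rw [h3, ← h]
      rfl
  · intro h
    rcases hc2 with h3 | h3
    · apply hnew j
      rw [h3, h]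
      exact Sym2.eq_swap
    · apply hnew k
      rw [h3, ← h]
      exact Sym2.eq_swap

/-- the new edges are new -/
lemma new_edge (hn : 5 ≤ n) (x : ZMod n ≃ V) {k l : ZMod n} (hkl : k ≠ l) (h1 : l ≠ k + 1)
    (h2 : k ≠ l + 1) : ∀ j, s(x k, x l) ≠ ed x j := by
  intro j h
  unfold ed at h
  rw [Sym2.eq_iff] at h
  rcases h with ⟨h3, h4⟩ | ⟨h3, h4⟩
  · have e1 := x.injective h3
    have e2 := x.injective h4
    apply h1
    rw [e2, e1]
  · have e1 := x.injective h3
    have e2 := x.injective h4
    apply h2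
    rw [e2, e1]

lemma new_edge' (hn : 5 ≤ n) (x : ZMod n ≃ V) {k l : ZMod n} (hkl : k ≠ l) (h1 : l ≠ k + 1)
    (h2 : k ≠ l + 1) : ∀ j, s(x (k + 1), x (l + 1)) ≠ ed x j := by
  apply new_edge hn x
  · intro h
    exact hkl (add_right_cancel h)
  · intro h
    exact h1 (add_right_cancel h)
  · intro h
    exact h2 (add_right_cancel h)

/-- the two switched paths -/
lemma switch_isP (hn : 5 ≤ n) (x : ZMod n ≃ V) {k l : ZMod n} (hkl : k ≠ l) :
    IsP n V (insert s(x k, x l) (M x k l)) ∧
      IsP n V (insert s(x (k + 1), x (l + 1)) (M x k l)) := by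
  obtain ⟨y, h1, h2, h3⟩ := exists_switch hn x hkl
  refine ⟨⟨y, l, ?_⟩, ⟨y, k, ?_⟩⟩
  · rw [Q_eq_insert' y hkl, h1, h3]
  · rw [Q_eq_insert y hkl, h2, h3]

lemma switch_Ad (hn : 5 ≤ n) (x : ZMod n ≃ V) {k l : ZMod n} (hkl : k ≠ l) {c : Sym2 V}
    (hnew : ∀ j, c ≠ ed x j) :
    Ad n (Q x k) (insert c (M x k l)) ∧ Ad n (Q x l) (insert c (M x k l)) := by
  constructor
  · rw [Q_eq_insert x hkl]
    exact Ad_insert (card_M hn x hkl) (hnew l).symm
  · rw [Q_eq_insert' x hkl]
    exact Ad_insert (card_M hn x hkl) (hnew k).symm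

/-- distance two in the Johnson graph -/
lemma johnson (hn : 5 ≤ n) {N w : Finset (Sym2 V)} {a b c d : Sym2 V} (hN : N.card = n - 3)
    (ha : a ∉ N) (hb : b ∉ N) (hc : c ∉ N) (hd : d ∉ N) (hab : a ≠ b) (hac : a ≠ c)
    (had : a ≠ d) (hbc : b ≠ c) (hbd : b ≠ d) (hcd : c ≠ d) (hw : w.card = n - 1)
    (h1 : Ad n (insert a (insert b N)) w) (h2 : Ad n (insert c (insert d N)) w) :
    ∃ e ∈ ({a, b} : Finset (Sym2 V)), ∃ f ∈ ({c, d} : Finset (Sym2 V)),
      w = insert e (insert f N) := by
  have hcard1 : (insert a (insert b N)).card = n - 1 := by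
    rw [card_insert_of_notMem (by rw [mem_insert]; tauto), card_insert_of_notMem hb, hN]
    omega
  have hcard2 : (insert c (insert d N)).card = n - 1 := by
    rw [card_insert_of_notMem (by rw [mem_insert]; tauto), card_insert_of_notMem hd, hN]
    omega
  have hmiss1 : ∀ p q, p ∈ insert a (insert b N) → q ∈ insert a (insert b N) → p ≠ q →
      p ∉ w → q ∉ w → False :=
    fun p q hp hq hpq hpw hqw => not_Ad hn hcard1 hp hq hpq hpw hqw h1
  have hmiss2 : ∀ p q, p ∈ insert c (insert d N) → q ∈ insert c (insert d N) → p ≠ q →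
      p ∉ w → q ∉ w → False :=
    fun p q hp hq hpq hpw hqw => not_Ad hn hcard2 hp hq hpq hpw hqw h2
  -- `N ⊆ w`
  have hNw : N ⊆ w := by
    intro p hp
    by_contra hpw
    have hpa : p ≠ a := by rintro rfl; exact ha hp
    have hpb : p ≠ b := by rintro rfl; exact hb hp
    have hpc : p ≠ c := by rintro rfl; exact hc hp
    have hpd : p ≠ d := by rintro rfl; exact hd hp
    have m1 : p ∈ insert a (insert b N) := mem_insert_of_mem (mem_insert_of_mem hp)
    have m2 : p ∈ insert c (insert d N) := mem_insert_of_mem (mem_insert_of_mem hp)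
    have haw : a ∈ w := by
      by_contra h
      exact hmiss1 p a m1 (mem_insert_self _ _) hpa hpw h
    have hbw : b ∈ w := by
      by_contra h
      exact hmiss1 p b m1 (mem_insert_of_mem (mem_insert_self _ _)) hpb hpw h
    have hcw : c ∈ w := by
      by_contra h
      exact hmiss2 p c m2 (mem_insert_self _ _) hpc hpw h
    have hdw : d ∈ w := by
      by_contra h
      exact hmiss2 p d m2 (mem_insert_of_mem (mem_insert_self _ _)) hpd hpw h
    have hsub : insert a (insert b (insert c (insert d (N.erase p)))) ⊆ w := by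
      intro q hq
      rw [mem_insert, mem_insert, mem_insert, mem_insert, mem_erase] at hq
      rcases hq with h | h | h | h | ⟨h, h'⟩
      · rw [h]; exact haw
      · rw [h]; exact hbw
      · rw [h]; exact hcw
      · rw [h]; exact hdw
      · by_contra hqw
        exact hmiss1 p q m1 (mem_insert_of_mem (mem_insert_of_mem h')) h.symm hpw hqw
    have h5 := card_le_card hsub
    rw [card_insert_of_notMem, card_insert_of_notMem, card_insert_of_notMem,
      card_insert_of_notMem, card_erase_of_mem hp, hN, hw] at h5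
    · omega
    · rw [mem_erase]; tauto
    · rw [mem_insert, mem_erase]; tauto
    · rw [mem_insert, mem_insert, mem_erase]; tauto
    · rw [mem_insert, mem_insert, mem_insert, mem_erase]; tauto
  have he : a ∈ w ∨ b ∈ w := by
    by_contra h
    push Not at h
    exact hmiss1 a b (mem_insert_self _ _) (mem_insert_of_mem (mem_insert_self _ _)) hab h.1 h.2
  have hf : c ∈ w ∨ d ∈ w := by
    by_contra h
    push Not at h
    exact hmiss2 c d (mem_insert_self _ _) (mem_insert_of_mem (mem_insert_self _ _)) hcd h.1 h.2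
  obtain ⟨e, he1, he2⟩ : ∃ e ∈ ({a, b} : Finset (Sym2 V)), e ∈ w := by
    rcases he with h | h
    · exact ⟨a, by simp, h⟩
    · exact ⟨b, by simp, h⟩
  obtain ⟨f, hf1, hf2⟩ : ∃ f ∈ ({c, d} : Finset (Sym2 V)), f ∈ w := by
    rcases hf with h | h
    · exact ⟨c, by simp, h⟩
    · exact ⟨d, by simp, h⟩
  refine ⟨e, he1, f, hf1, ?_⟩
  have heN : e ∉ N := by
    rw [mem_insert, mem_singleton] at he1
    rcases he1 with rfl | rfl
    · exact ha
    · exact hb
  have hfN : f ∉ N := by
    rw [mem_insert, mem_singleton] at hf1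
    rcases hf1 with rfl | rfl
    · exact hc
    · exact hd
  have hef : e ≠ f := by
    rw [mem_insert, mem_singleton] at he1 hf1
    rcases he1 with rfl | rfl <;> rcases hf1 with rfl | rfl
    · exact hac
    · exact had
    · exact hbc
    · exact hbd
  symm
  apply eq_of_subset_of_card_le
  · intro q hq
    rw [mem_insert, mem_insert] at hq
    rcases hq with h | h | h
    · rw [h]; exact he2
    · rw [h]; exact hf2
    · exact hNw h
  · rw [hw, card_insert_of_notMem (by rw [mem_insert]; tauto), card_insert_of_notMem hfN, hN]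
    omega

end Pool.Agent.R39.PathAut
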