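import Mathlib
import Pool.Agent.R39.PathAut.Common

set_option autoImplicit false
set_option linter.unusedSectionVars false

/-! # Automorphisms of the path graph map Hamilton cycles to Hamilton cycles -/

namespace Pool.Agent.R39.PathAut

open Finset

variable {n : ℕ} [NeZero n] {V : Type} [DecidableEq V]

/-- `φ` is an injective map on paths which preserves adjacency, with a preserving inverse -/
structure Auto (n : ℕ) [NeZero n] (V : Type) [DecidableEq V]
    (φ ψ : Finset (Sym2 V) → Finset (Sym2 V)) : Prop where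
  isP : ∀ A, IsP n V A → IsP n V (φ A)
  isP' : ∀ A, IsP n V A → IsP n V (ψ A)
  left : ∀ A, IsP n V A → ψ (φ A) = A
  right : ∀ A, IsP n V A → φ (ψ A) = A
  ad : ∀ A B, IsP n V A → IsP n V B → (Ad n A B → Ad n (φ A) (φ B))
  ad' : ∀ A B, IsP n V A → IsP n V B → (Ad n A B → Ad n (ψ A) (ψ B))

variable {φ ψ : Finset (Sym2 V) → Finset (Sym2 V)}

lemma Auto.inj (h : Auto n V φ ψ) {A B : Finset (Sym2 V)} (hA : IsP n V A) (hB : IsP n V B)
    (hAB : φ A = φ B) : A = B := by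
  rw [← h.left A hA, ← h.left B hB, hAB]

lemma isP_Q (x : ZMod n ≃ V) (k : ZMod n) : IsP n V (Q x k) := ⟨x, k, rfl⟩

/-- three common neighbours -/
def Mate (n : ℕ) [NeZero n] (V : Type) [DecidableEq V] (A B : Finset (Sym2 V)) : Prop :=
  Ad n A B ∧ ∃ w1 w2 w3, IsP n V w1 ∧ IsP n V w2 ∧ IsP n V w3 ∧ w1 ≠ w2 ∧ w1 ≠ w3 ∧ w2 ≠ w3 ∧
    Ad n A w1 ∧ Ad n A w2 ∧ Ad n A w3 ∧ Ad n B w1 ∧ Ad n B w2 ∧ Ad n B w3

lemma Auto.mate (h : Auto n V φ ψ) {A B : Finset (Sym2 V)} (hA : IsP n V A) (hB : IsP n V B)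
    (hm : Mate n V A B) : Mate n V (φ A) (φ B) := by
  obtain ⟨h0, w1, w2, w3, p1, p2, p3, n12, n13, n23, a1, a2, a3, b1, b2, b3⟩ := hm
  exact ⟨h.ad _ _ hA hB h0, φ w1, φ w2, φ w3, h.isP _ p1, h.isP _ p2, h.isP _ p3,
    fun e => n12 (h.inj p1 p2 e), fun e => n13 (h.inj p1 p3 e), fun e => n23 (h.inj p2 p3 e),
    h.ad _ _ hA p1 a1, h.ad _ _ hA p2 a2, h.ad _ _ hA p3 a3,
    h.ad _ _ hB p1 b1, h.ad _ _ hB p2 b2, h.ad _ _ hB p3 b3⟩

lemma exists_three (hn : 5 ≤ n) (k l : ZMod n) : ∃ a b c : ZMod n, a ≠ b ∧ a ≠ c ∧ b ≠ c ∧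
    (a ≠ k ∧ a ≠ l) ∧ (b ≠ k ∧ b ≠ l) ∧ (c ≠ k ∧ c ≠ l) := by
  have h1 : 2 < ((univ : Finset (ZMod n)).erase k |>.erase l).card := by
    have h2 := pred_card_le_card_erase (s := (univ : Finset (ZMod n))) (a := k)
    have h3 := pred_card_le_card_erase (s := (univ : Finset (ZMod n)).erase k) (a := l)
    rw [card_univ, ZMod.card] at h2
    omega
  obtain ⟨a, b, c, ha, hb, hc, hab, hac, hbc⟩ := two_lt_card_iff.1 h1
  rw [mem_erase, mem_erase] at ha hb hc
  exact ⟨a, b, c, hab, hac, hbc, ⟨ha.2.1, ha.1⟩, ⟨hb.2.1, hb.1⟩, ⟨hc.2.1, hc.1⟩⟩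

lemma mate_Q (hn : 5 ≤ n) (x : ZMod n ≃ V) {k l : ZMod n} (hkl : k ≠ l) :
    Mate n V (Q x k) (Q x l) := by
  obtain ⟨a, b, c, hab, hac, hbc, ha, hb, hc⟩ := exists_three hn k l
  exact ⟨Ad_QQ hn x hkl, Q x a, Q x b, Q x c, isP_Q x a, isP_Q x b, isP_Q x c,
    fun h => hab ((Q_inj hn).1 h), fun h => hac ((Q_inj hn).1 h), fun h => hbc ((Q_inj hn).1 h),
    Ad_QQ hn x ha.1.symm, Ad_QQ hn x hb.1.symm, Ad_QQ hn x hc.1.symm,
    Ad_QQ hn x ha.2.symm, Ad_QQ hn x hb.2.symm, Ad_QQ hn x hc.2.symm⟩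

lemma mate_elim (hn : 5 ≤ n) (x : ZMod n ≃ V) {k : ZMod n} {B : Finset (Sym2 V)}
    (hB : IsP n V B) (hm : Mate n V (Q x k) B) : ∃ l, l ≠ k ∧ B = Q x l := by
  obtain ⟨h0, w1, w2, w3, p1, p2, p3, n12, n13, n23, a1, a2, a3, b1, b2, b3⟩ := hm
  obtain ⟨l, hl, c, hcQ, rfl, hc⟩ := nbr hn x k hB h0
  by_cases hck : c = ed x k
  · refine ⟨l, hl, ?_⟩
    rw [hck, Q_eq_insert' x hl.symm]
  exfalso
  have hnew : ∀ i, c ≠ ed x i := by
    intro i
    by_cases hi : i = k
    · rw [hi]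
      exact hck
    · rintro rfl
      exact hcQ ((ed_mem_Q hn).2 hi)
  have hc2 : c = s(x k, x l) ∨ c = s(x (k + 1), x (l + 1)) := by
    rcases hc with h | h
    · exact (hck h).elim
    · exact h
  obtain ⟨c1, e1, f1, g1⟩ := lemB hn x hl.symm hc2 hnew p1 a1 b1.symm
  obtain ⟨c2, e2, f2, g2⟩ := lemB hn x hl.symm hc2 hnew p2 a2 b2.symm
  obtain ⟨c3, e3, f3, g3⟩ := lemB hn x hl.symm hc2 hnew p3 a3 b3.symm
  have m12 : c1 ≠ c2 := by
    rintro rfl
    exact n12 (e1.trans e2.symm)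
  have m13 : c1 ≠ c3 := by
    rintro rfl
    exact n13 (e1.trans e3.symm)
  have m23 : c2 ≠ c3 := by
    rintro rfl
    exact n23 (e2.trans e3.symm)
  rcases hc2 with h | h
  · rw [← h] at g1 g2 g3
    rcases g1 with g1 | g1 | g1
    · rcases g2 with g2 | g2 | g2
      · exact m12 (g1.trans g2.symm)
      · exact f2 g2
      · rcases g3 with g3 | g3 | g3
        · exact m13 (g1.trans g3.symm)
        · exact f3 g3
        · exact m23 (g2.trans g3.symm)
    · exact f1 g1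
    · rcases g2 with g2 | g2 | g2
      · rcases g3 with g3 | g3 | g3
        · exact m23 (g2.trans g3.symm)
        · exact f3 g3
        · exact m13 (g1.trans g3.symm)
      · exact f2 g2
      · exact m12 (g1.trans g2.symm)
  · rw [← h] at g1 g2 g3
    rcases g1 with g1 | g1 | g1
    · rcases g2 with g2 | g2 | g2
      · exact m12 (g1.trans g2.symm)
      · rcases g3 with g3 | g3 | g3
        · exact m13 (g1.trans g3.symm)
        · exact m23 (g2.trans g3.symm)
        · exact f3 g3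
      · exact f2 g2
    · rcases g2 with g2 | g2 | g2
      · rcases g3 with g3 | g3 | g3
        · exact m23 (g2.trans g3.symm)
        · exact m13 (g1.trans g3.symm)
        · exact f3 g3
      · exact m12 (g1.trans g2.symm)
      · exact f2 g2
    · exact f1 g1

/-- dihedral maps -/
lemma dihedral (hn : 5 ≤ n) (τ : ZMod n → ZMod n) (hinj : Function.Injective τ)
    (hstep : ∀ k, τ (k + 1) = τ k + 1 ∨ τ (k + 1) = τ k - 1) :
    (∀ k, τ k = τ 0 + k) ∨ (∀ k, τ k = τ 0 - k) := by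
  have hflip : ∀ k, (τ (k + 1) = τ k + 1 → τ (k + 1 + 1) = τ (k + 1) + 1) ∧
      (τ (k + 1) = τ k - 1 → τ (k + 1 + 1) = τ (k + 1) - 1) := by
    intro k
    have hne : τ (k + 1 + 1) ≠ τ k := by
      intro h
      have := hinj h
      apply two_ne' hn
      linear_combination this
    constructor
    · intro h
      rcases hstep (k + 1) with h2 | h2
      · exact h2
      · exfalso
        apply hne
        rw [h2, h]
        ring
    · intro h
      rcases hstep (k + 1) with h2 | h2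
      · exfalso
        apply hne
        rw [h2, h]
        ring
      · exact h2
  rcases hstep 0 with h0 | h0
  · left
    have h1 : ∀ i : ℕ, τ (i : ZMod n) = τ 0 + i ∧ τ ((i : ZMod n) + 1) = τ (i : ZMod n) + 1 := by
      intro i
      induction i with
      | zero =>
        refine ⟨by simp, ?_⟩
        simpa using h0
      | succ i ih =>
        push_cast
        refine ⟨?_, ?_⟩
        · rw [ih.2, ih.1]
          ring
        · exact (hflip _).1 ih.2
    intro k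
    have := (h1 k.val).1
    rw [ZMod.natCast_zmod_val] at this
    exact this
  · right
    have h1 : ∀ i : ℕ, τ (i : ZMod n) = τ 0 - i ∧ τ ((i : ZMod n) + 1) = τ (i : ZMod n) - 1 := by
      intro i
      induction i with
      | zero =>
        refine ⟨by simp, ?_⟩
        simpa using h0
      | succ i ih =>
        push_cast
        refine ⟨?_, ?_⟩
        · rw [ih.2, ih.1]
          ring
        · exact (hflip _).2 ih.2
    intro k
    have := (h1 k.val).1
    rw [ZMod.natCast_zmod_val] at this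
    exact this

/-- an automorphism acts on the members of a Hamilton cycle by a dihedral map -/
lemma Auto.tau (hn : 5 ≤ n) (h : Auto n V φ ψ) (x y : ZMod n ≃ V) {k0 j0 : ZMod n}
    (h0 : φ (Q x k0) = Q y j0) :
    ∃ τ : ZMod n → ZMod n, (∀ k, φ (Q x k) = Q y (τ k)) ∧
      ((∀ k, τ k = τ 0 + k) ∨ (∀ k, τ k = τ 0 - k)) := by
  have hex : ∀ k, ∃ j, φ (Q x k) = Q y j := by
    intro k
    by_cases hk : k = k0
    · exact ⟨j0, by rw [hk, h0]⟩
    · have h1 := h.mate (isP_Q x k0) (isP_Q x k) (mate_Q hn x (Ne.symm hk))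
      rw [h0] at h1
      obtain ⟨l, _, hl⟩ := mate_elim hn y (h.isP _ (isP_Q x k)) h1
      exact ⟨l, hl⟩
  choose τ hτ using hex
  have hinj : Function.Injective τ := by
    intro a b hab
    have h1 : φ (Q x a) = φ (Q x b) := by rw [hτ, hτ, hab]
    exact (Q_inj hn).1 (h.inj (isP_Q x a) (isP_Q x b) h1)
  refine ⟨τ, hτ, dihedral hn τ hinj ?_⟩
  intro k
  by_contra hno
  push Not at hno
  obtain ⟨hno1, hno2⟩ := hno
  have hkk : k ≠ k + 1 := by
    intro h1
    apply one_ne' hn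
    linear_combination -h1
  have hne : τ k ≠ τ (k + 1) := fun h1 => hkk (hinj h1)
  have hno2' : τ k ≠ τ (k + 1) + 1 := by
    intro h1
    apply hno2
    rw [h1]
    ring
  have hnew := new_edge hn y hne hno1 hno2'
  obtain ⟨hP, _⟩ := switch_isP hn y hne
  obtain ⟨hA1, hA2⟩ := switch_Ad hn y hne hnew
  set w' := insert s(y (τ k), y (τ (k + 1))) (M y (τ k) (τ (k + 1))) with hw'
  have b1 : Ad n (Q x k) (ψ w') := by
    have := h.ad' _ _ (isP_Q y _) hP hA1
    rw [← hτ, h.left _ (isP_Q x k)] at this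
    exact this
  have b2 : Ad n (Q x (k + 1)) (ψ w') := by
    have := h.ad' _ _ (isP_Q y _) hP hA2
    rw [← hτ, h.left _ (isP_Q x (k + 1))] at this
    exact this
  have hout : ∀ j, ψ w' ≠ Q x j := by
    intro j hj
    have h1 : w' = Q y (τ j) := by
      rw [← hτ, ← hj, h.right _ hP]
    have h2 : s(y (τ k), y (τ (k + 1))) ∈ Q y (τ j) := by
      rw [← h1]
      exact mem_insert_self _ _
    obtain ⟨i, _, hi⟩ := mem_Q.1 h2
    exact hnew i hi.symm
  exact (lemNC hn x hkk (h.isP' _ hP) b1 b2 hout).1 rfl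

lemma Q_trans_add (x : ZMod n ≃ V) (a k : ZMod n) :
    Q ((Equiv.addLeft a).trans x) k = Q x (a + k) := by
  ext e
  rw [mem_Q, mem_Q]
  constructor
  · rintro ⟨j, hj, rfl⟩
    refine ⟨a + j, fun h => hj (add_left_cancel h), ?_⟩
    show s(x (a + j), x (a + j + 1)) = s(x (a + j), x (a + (j + 1)))
    rw [add_assoc]
  · rintro ⟨j, hj, rfl⟩
    refine ⟨j - a, ?_, ?_⟩
    · intro h
      apply hj
      rw [← h]
      ring
    · show s(x (a + (j - a)), x (a + (j - a + 1))) = s(x j, x (j + 1))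
      rw [show a + (j - a) = j by ring, show a + (j - a + 1) = j + 1 by ring]

lemma Q_trans_sub (x : ZMod n ≃ V) (a k : ZMod n) :
    Q ((Equiv.subLeft (a + 1)).trans x) k = Q x (a - k) := by
  ext e
  rw [mem_Q, mem_Q]
  constructor
  · rintro ⟨j, hj, rfl⟩
    refine ⟨a - j, fun h => hj (by linear_combination -h), ?_⟩
    show s(x (a - j), x (a - j + 1)) = s(x (a + 1 - j), x (a + 1 - (j + 1)))
    rw [show a + 1 - j = a - j + 1 by ring, show a + 1 - (j + 1) = a - j by ring]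
    exact Sym2.eq_swap
  · rintro ⟨j, hj, rfl⟩
    refine ⟨a - j, ?_, ?_⟩
    · intro h
      apply hj
      linear_combination -h
    · show s(x (a + 1 - (a - j)), x (a + 1 - (a - j + 1))) = s(x j, x (j + 1))
      rw [show a + 1 - (a - j) = j + 1 by ring, show a + 1 - (a - j + 1) = j by ring]
      exact Sym2.eq_swap

/-- **an automorphism maps Hamilton cycles to Hamilton cycles** -/
lemma Auto.exists_x' (hn : 5 ≤ n) (h : Auto n V φ ψ) (x : ZMod n ≃ V) :
    ∃ x' : ZMod n ≃ V, ∀ k, φ (Q x k) = Q x' k := by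
  obtain ⟨y, j0, h0⟩ := h.isP _ (isP_Q x 0)
  obtain ⟨τ, hτ, hd⟩ := h.tau hn x y h0
  rcases hd with hd | hd
  · refine ⟨(Equiv.addLeft (τ 0)).trans y, ?_⟩
    intro k
    rw [hτ, Q_trans_add, hd k]
  · refine ⟨(Equiv.subLeft (τ 0 + 1)).trans y, ?_⟩
    intro k
    rw [hτ, Q_trans_sub, hd k]

end Pool.Agent.R39.PathAut
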