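import Mathlib
import Pool.Agent.R39.PathAut.Tau

set_option autoImplicit false
set_option linter.unusedSectionVars false

/-! # An automorphism fixing a Hamilton cycle fixes the neighbouring Hamilton cycles -/

namespace Pool.Agent.R39.PathAut

open Finset

variable {n : ℕ} [NeZero n] {V : Type} [DecidableEq V]

/-- `x` with the first two elements exchanged -/
def sw (x : ZMod n ≃ V) : ZMod n ≃ V := (Equiv.swap (0 : ZMod n) 1).trans x

lemma sw_zero (x : ZMod n ≃ V) : sw x 0 = x 1 := by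
  show x (Equiv.swap (0 : ZMod n) 1 0) = x 1
  rw [Equiv.swap_apply_left]

lemma sw_one (x : ZMod n ≃ V) : sw x 1 = x 0 := by
  show x (Equiv.swap (0 : ZMod n) 1 1) = x 0
  rw [Equiv.swap_apply_right]

lemma sw_other (x : ZMod n ≃ V) {j : ZMod n} (h0 : j ≠ 0) (h1 : j ≠ 1) : sw x j = x j := by
  show x (Equiv.swap (0 : ZMod n) 1 j) = x j
  rw [Equiv.swap_apply_of_ne_of_ne h0 h1]

section
variable (hn : 5 ≤ n)
include hn

lemma neg_one_ne_zero : (-1 : ZMod n) ≠ 0 := fun h => one_ne' hn (by linear_combination -h)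

lemma neg_one_ne_one : (-1 : ZMod n) ≠ 1 := fun h => two_ne' hn (by linear_combination -h)

lemma neg_one_ne_two : (-1 : ZMod n) ≠ 2 := fun h => three_ne' hn (by linear_combination -h)

lemma neg_one_ne_three : (-1 : ZMod n) ≠ 3 := fun h => four_ne' hn (by linear_combination -h)

lemma two_ne_one : (2 : ZMod n) ≠ 1 := fun h => one_ne' hn (by linear_combination h)

lemma three_ne_one : (3 : ZMod n) ≠ 1 := fun h => two_ne' hn (by linear_combination h)

lemma three_ne_two : (3 : ZMod n) ≠ 2 := fun h => one_ne' hn (by linear_combination h)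

end

lemma ed_sw_neg_one (hn : 5 ≤ n) (x : ZMod n ≃ V) : ed (sw x) (-1) = s(x (-1), x 1) := by
  unfold ed
  rw [sw_other x (neg_one_ne_zero hn) (neg_one_ne_one hn), neg_add_cancel, sw_zero]

lemma ed_sw_one (hn : 5 ≤ n) (x : ZMod n ≃ V) : ed (sw x) 1 = s(x 0, x 2) := by
  unfold ed
  rw [sw_one, show (1 : ZMod n) + 1 = 2 by ring, sw_other x (two_ne' hn) (two_ne_one hn)]

lemma ed_sw_two (hn : 5 ≤ n) (x : ZMod n ≃ V) : ed (sw x) 2 = s(x 2, x 3) := by
  unfold ed
  rw [sw_other x (two_ne' hn) (two_ne_one hn), show (2 : ZMod n) + 1 = 3 by ring,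
    sw_other x (three_ne' hn) (three_ne_one hn)]

lemma ed_sw_zero (hn : 5 ≤ n) (x : ZMod n ≃ V) : ed (sw x) 0 = ed x 0 := by
  unfold ed
  rw [sw_zero, zero_add, sw_one]
  exact Sym2.eq_swap

lemma ed_sw_other (x : ZMod n ≃ V) {j : ZMod n} (h0 : j ≠ 0) (h1 : j ≠ 1) (h2 : j ≠ -1) :
    ed (sw x) j = ed x j := by
  unfold ed
  rw [sw_other x h0 h1, sw_other x]
  · intro h
    apply h2
    linear_combination h
  · intro h
    apply h0
    linear_combination h

lemma M_sw (hn : 5 ≤ n) (x : ZMod n ≃ V) : M (sw x) (-1) 1 = M x (-1) 1 := by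
  ext e
  rw [mem_M, mem_M]
  have key : ∀ j : ZMod n, j ≠ -1 → j ≠ 1 → ed (sw x) j = ed x j := by
    intro j h1 h2
    by_cases h0 : j = 0
    · rw [h0, ed_sw_zero hn]
    · exact ed_sw_other x h0 h2 h1
  constructor
  · rintro ⟨j, h1, h2, rfl⟩
    exact ⟨j, h1, h2, (key j h1 h2).symm⟩
  · rintro ⟨j, h1, h2, rfl⟩
    exact ⟨j, h1, h2, key j h1 h2⟩

/-- three edges removed -/
def M3 (x : ZMod n ≃ V) : Finset (Sym2 V) := (M x (-1) 1).erase (ed x 2)

lemma mem_M3 (hn : 5 ≤ n) (x : ZMod n ≃ V) {e : Sym2 V} :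
    e ∈ M3 x ↔ ∃ j, j ≠ -1 ∧ j ≠ 1 ∧ j ≠ 2 ∧ ed x j = e := by
  unfold M3
  rw [mem_erase, mem_M]
  constructor
  · rintro ⟨h1, j, h2, h3, rfl⟩
    refine ⟨j, h2, h3, ?_, rfl⟩
    rintro rfl
    exact h1 rfl
  · rintro ⟨j, h2, h3, h4, rfl⟩
    refine ⟨?_, j, h2, h3, rfl⟩
    intro h
    exact h4 ((ed_inj hn x).1 h)

lemma M3_a (hn : 5 ≤ n) (x : ZMod n ≃ V) : M x (-1) 1 = insert (ed x 2) (M3 x) := by
  unfold M3
  rw [insert_erase]
  rw [ed_mem_M hn]
  exact ⟨(neg_one_ne_two hn).symm, two_ne_one hn⟩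

lemma M3_b (hn : 5 ≤ n) (x : ZMod n ≃ V) : M x (-1) 2 = insert (ed x 1) (M3 x) := by
  ext e
  rw [mem_insert, mem_M, mem_M3 hn]
  constructor
  · rintro ⟨j, h1, h2, rfl⟩
    by_cases h : j = 1
    · left
      rw [h]
    · right
      exact ⟨j, h1, h, h2, rfl⟩
  · rintro (h | ⟨j, h1, _, h3, h4⟩)
    · exact ⟨1, (neg_one_ne_one hn).symm, (two_ne_one hn).symm, h.symm⟩
    · exact ⟨j, h1, h3, h4⟩

lemma M3_c (hn : 5 ≤ n) (x : ZMod n ≃ V) : M (sw x) (-1) 2 = insert (s(x 0, x 2)) (M3 x) := by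
  rw [M3_b hn, ed_sw_one hn]
  congr 1
  unfold M3
  rw [M_sw hn, ed_sw_two hn]
  congr 1
  unfold ed
  rw [show (2 : ZMod n) + 1 = 3 by ring]

lemma M3_d (hn : 5 ≤ n) (x : ZMod n ≃ V) : M (sw x) 1 2 = insert (s(x (-1), x 1)) (M3 x) := by
  ext e
  rw [mem_insert, mem_M, mem_M3 hn]
  constructor
  · rintro ⟨j, h1, h2, rfl⟩
    by_cases h : j = -1
    · left
      rw [h, ed_sw_neg_one hn]
    · right
      refine ⟨j, h, h1, h2, ?_⟩
      by_cases h0 : j = 0
      · rw [h0, ed_sw_zero hn]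
      · rw [ed_sw_other x h0 h1 h]
  · rintro (h | ⟨j, h1, h2, h3, h4⟩)
    · exact ⟨-1, neg_one_ne_one hn, neg_one_ne_two hn, by rw [ed_sw_neg_one hn, h]⟩
    · refine ⟨j, h2, h3, ?_⟩
      rw [← h4]
      by_cases h0 : j = 0
      · rw [h0, ed_sw_zero hn]
      · rw [ed_sw_other x h0 h2 h1]

lemma card_M3 (hn : 5 ≤ n) (x : ZMod n ≃ V) : (M3 x).card = n - 3 := by
  unfold M3
  rw [card_erase_of_mem, card_M hn x (neg_one_ne_one hn)]
  · omega
  · rw [ed_mem_M hn]
    exact ⟨(neg_one_ne_two hn).symm, two_ne_one hn⟩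

/-- `s(x i, x j) = s(x k, x l)` -/
lemma s_eq (x : ZMod n ≃ V) {i j k l : ZMod n} (h : s(x i, x j) = s(x k, x l)) :
    (i = k ∧ j = l) ∨ (i = l ∧ j = k) := by
  rw [Sym2.eq_iff] at h
  rcases h with ⟨h1, h2⟩ | ⟨h1, h2⟩
  · exact Or.inl ⟨x.injective h1, x.injective h2⟩
  · exact Or.inr ⟨x.injective h1, x.injective h2⟩

/-- at most one common neighbour, except for one pair -/
lemma only_common (hn : 5 ≤ n) (x : ZMod n ≃ V) {a c : Sym2 V}
    (ha : a = s(x (-1), x 1) ∨ a = s(x 0, x 2)) (hc : c = s(x (-1), x 2) ∨ c = s(x 0, x 3))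
    (hnot : ¬ (a = s(x 0, x 2) ∧ c = s(x (-1), x 2))) {w : Finset (Sym2 V)}
    (hw : IsP n V w) (h1 : Ad n (insert a (M x (-1) 1)) w) (h2 : Ad n (insert c (M x (-1) 2)) w) :
    w = Q x (-1) := by
  have n1 := neg_one_ne_zero hn
  have n2 := neg_one_ne_one hn
  have n3 := neg_one_ne_two hn
  have n4 := neg_one_ne_three hn
  have n5 := two_ne_one hn
  have n6 := three_ne_one hn
  have n7 := three_ne_two hn
  have n8 := two_ne' hn
  have n9 := three_ne' hn
  have n10 := one_ne' hn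
  have e1 : ed x 1 = s(x 1, x 2) := by
    unfold ed
    rw [show (1 : ZMod n) + 1 = 2 by ring]
  have e2 : ed x 2 = s(x 2, x 3) := by
    unfold ed
    rw [show (2 : ZMod n) + 1 = 3 by ring]
  have em : ed x (-1) = s(x (-1), x 0) := by
    unfold ed
    rw [neg_add_cancel]
  have ha_new : ∀ j, a ≠ ed x j := by
    rcases ha with rfl | rfl
    · refine new_edge hn x n2 ?_ ?_
      · rw [neg_add_cancel]; exact n10
      · rw [show (1 : ZMod n) + 1 = 2 by ring]; exact n3
    · refine new_edge hn x n8.symm ?_ ?_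
      · rw [zero_add]; exact n5
      · rw [show (2 : ZMod n) + 1 = 3 by ring]; exact n9.symm
  have hc_new : ∀ j, c ≠ ed x j := by
    rcases hc with rfl | rfl
    · refine new_edge hn x n3 ?_ ?_
      · rw [neg_add_cancel]; exact n8
      · rw [show (2 : ZMod n) + 1 = 3 by ring]; exact n4
    · refine new_edge hn x n9.symm ?_ ?_
      · rw [zero_add]; exact n6
      · rw [show (3 : ZMod n) + 1 = 4 by ring]; exact (four_ne' hn).symm
  have hac : a ≠ c := by
    rintro rfl
    rcases ha with h | h <;> rcases hc with h' | h' <;> rw [h] at h' <;>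
      rcases s_eq x h' with ⟨g1, g2⟩ | ⟨g1, g2⟩
    · exact n5 g2.symm
    · exact n3 g1
    · exact n1 g1
    · exact n4 g1
    · exact n1 g1.symm
    · exact n8 g1.symm
    · exact n7 g2.symm
    · exact n9 g1.symm
  have haM3 : a ∉ M3 x := by
    rw [mem_M3 hn]
    rintro ⟨j, _, _, _, hj⟩
    exact ha_new j hj.symm
  have hcM3 : c ∉ M3 x := by
    rw [mem_M3 hn]
    rintro ⟨j, _, _, _, hj⟩
    exact hc_new j hj.symm
  have h1M3 : ed x 1 ∉ M3 x := by
    rw [mem_M3 hn]
    rintro ⟨j, _, hj1, _, hj⟩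
    exact hj1 ((ed_inj hn x).1 hj)
  have h2M3 : ed x 2 ∉ M3 x := by
    rw [mem_M3 hn]
    rintro ⟨j, _, _, hj1, hj⟩
    exact hj1 ((ed_inj hn x).1 hj)
  rw [M3_a hn] at h1
  rw [M3_b hn] at h2
  obtain ⟨e, he, f, hf, hwef⟩ := johnson hn (card_M3 hn x) haM3 h2M3 hcM3 h1M3 (ha_new 2) hac
    (ha_new 1) (hc_new 2).symm (by rw [Ne, ed_inj hn]; exact n5) (hc_new 1) (hw.card hn) h1 h2
  rw [mem_insert, mem_singleton] at he hf
  rcases he with he | he <;> rcases hf with hf | hf <;> rw [he, hf] at hwef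
  · -- `a, c`
    exfalso
    rcases ha with ha' | ha'
    · -- `a = s(x (-1), x 1)`
      have g1 : w = insert c (M (sw x) 1 2) := by
        rw [hwef, M3_d hn, ha', insert_comm]
      have g2 : c ∉ M (sw x) 1 2 := by
        rw [M3_d hn, mem_insert]
        rintro (h | h)
        · exact hac (ha'.trans h.symm)
        · exact hcM3 h
      have g3 := flem hn (sw x) n5.symm g2 (by rw [← g1]; exact hw)
      rw [ed_sw_one hn, ed_sw_two hn, sw_one, sw_other x n8 n5,
        show (1 : ZMod n) + 1 = 2 by ring, show (2 : ZMod n) + 1 = 3 by ring,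
        sw_other x n8 n5, sw_other x n9 n6] at g3
      rcases hc with hc' | hc' <;> rw [hc'] at g3 <;>
        rcases g3 with g3 | g3 | g3 | g3 <;> rcases s_eq x g3 with ⟨g4, g5⟩ | ⟨g4, g5⟩
      · exact n1 g4
      · exact n3 g4
      · exact n3 g4
      · exact n4 g4
      · exact n1 g4
      · exact n3 g4
      · exact n3 g4
      · exact n4 g4
      · exact n7 g5
      · exact n8 g4.symm
      · exact n8 g4.symm
      · exact n9 g4.symm
      · exact n7 g5
      · exact n8 g4.symm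
      · exact n8 g4.symm
      · exact n9 g4.symm
    · have hc' : c = s(x 0, x 3) := by
        rcases hc with h | h
        · exact (hnot ⟨ha', h⟩).elim
        · exact h
      have g1 : w = insert c (M (sw x) (-1) 2) := by
        rw [hwef, M3_c hn, ha', insert_comm]
      have g2 : c ∉ M (sw x) (-1) 2 := by
        rw [M3_c hn, mem_insert]
        rintro (h | h)
        · exact hac (ha'.trans h.symm)
        · exact hcM3 h
      have g3 := flem hn (sw x) n3 g2 (by rw [← g1]; exact hw)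
      rw [ed_sw_neg_one hn, ed_sw_two hn, sw_other x n1 n2, sw_other x n8 n5,
        neg_add_cancel, show (2 : ZMod n) + 1 = 3 by ring, sw_zero, sw_other x n9 n6] at g3
      rw [hc'] at g3
      rcases g3 with g3 | g3 | g3 | g3 <;> rcases s_eq x g3 with ⟨g4, g5⟩ | ⟨g4, g5⟩
      · exact n1 g4.symm
      · exact n10 g4.symm
      · exact n8 g4.symm
      · exact n9 g4.symm
      · exact n1 g4.symm
      · exact n8 g4.symm
      · exact n10 g4.symm
      · exact n9 g4.symm
  · -- `a, ed x 1`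
    exfalso
    have g1 : w = insert a (M x (-1) 2) := by
      rw [hwef, M3_b hn]
    have g2 : a ∉ M x (-1) 2 := by
      rw [M3_b hn, mem_insert]
      rintro (h | h)
      · exact ha_new 1 h
      · exact haM3 h
    have g3 := flem hn x n3 g2 (by rw [← g1]; exact hw)
    rw [neg_add_cancel, show (2 : ZMod n) + 1 = 3 by ring] at g3
    rcases g3 with g3 | g3 | g3 | g3
    · exact ha_new _ g3
    · exact ha_new _ g3
    · rcases ha with ha' | ha' <;> rw [ha'] at g3 <;> rcases s_eq x g3 with ⟨g4, g5⟩ | ⟨g4, g5⟩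
      · exact n5 g5.symm
      · exact n3 g4
      · exact n1 g4.symm
      · exact n8 g4.symm
    · rcases ha with ha' | ha' <;> rw [ha'] at g3 <;> rcases s_eq x g3 with ⟨g4, g5⟩ | ⟨g4, g5⟩
      · exact n1 g4
      · exact n4 g4
      · exact n7 g5.symm
      · exact n9 g4.symm
  · -- `ed x 2, c`
    exfalso
    have g1 : w = insert c (M x (-1) 1) := by
      rw [hwef, M3_a hn, insert_comm]
    have g2 : c ∉ M x (-1) 1 := by
      rw [M3_a hn, mem_insert]
      rintro (h | h)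
      · exact hc_new 2 h
      · exact hcM3 h
    have g3 := flem hn x n2 g2 (by rw [← g1]; exact hw)
    rw [neg_add_cancel, show (1 : ZMod n) + 1 = 2 by ring] at g3
    rcases g3 with g3 | g3 | g3 | g3
    · exact hc_new _ g3
    · exact hc_new _ g3
    · rcases hc with ha' | ha' <;> rw [ha'] at g3 <;> rcases s_eq x g3 with ⟨g4, g5⟩ | ⟨g4, g5⟩
      · exact n5 g5
      · exact n2 g4
      · exact n1 g4.symm
      · exact n10 g4.symm
    · rcases hc with ha' | ha' <;> rw [ha'] at g3 <;> rcases s_eq x g3 with ⟨g4, g5⟩ | ⟨g4, g5⟩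
      · exact n1 g4
      · exact n3 g4
      · exact n7 g5
      · exact n8 g4.symm
  · -- `ed x 2, ed x 1`
    rw [hwef, Q_eq_insert x n2, M3_a hn, insert_comm]

end Pool.Agent.R39.PathAut
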