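import Mathlib
import Pool.Agent.R39.PathAut.Step

set_option autoImplicit false
set_option linter.unusedSectionVars false

/-! # Every automorphism of the path graph is induced by a permutation -/

namespace Pool.Agent.R39.PathAut

open Finset

variable {n : ℕ} [NeZero n] {V : Type} [DecidableEq V]
variable {φ ψ : Finset (Sym2 V) → Finset (Sym2 V)}

lemma Auto.fix_pair (hn : 5 ≤ n) (h : Auto n V φ ψ) (x : ZMod n ≃ V)
    (hfix : ∀ k, φ (Q x k) = Q x k) {k l : ZMod n} (hkl : k ≠ l) {c : Sym2 V}
    (hc : c = s(x k, x l) ∨ c = s(x (k + 1), x (l + 1))) (hnew : ∀ j, c ≠ ed x j) :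
    ∃ c', (c' = s(x k, x l) ∨ c' = s(x (k + 1), x (l + 1))) ∧
      φ (insert c (M x k l)) = insert c' (M x k l) := by
  have hP : IsP n V (insert c (M x k l)) := by
    rcases hc with rfl | rfl
    · exact (switch_isP hn x hkl).1
    · exact (switch_isP hn x hkl).2
  obtain ⟨h1, h2⟩ := switch_Ad hn x hkl hnew
  have h3 := h.ad _ _ (isP_Q x k) hP h1
  have h4 := h.ad _ _ (isP_Q x l) hP h2
  rw [hfix] at h3 h4
  obtain ⟨_, _, c', hw, hc', _⟩ := lemNC hn x hkl (h.isP _ hP) h3 h4 (by
    intro j hj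
    have h5 : insert c (M x k l) = Q x j := h.inj hP (isP_Q x j) (by rw [hj, hfix])
    have h6 : c ∈ Q x j := by
      rw [← h5]
      exact mem_insert_self _ _
    obtain ⟨i, _, hi⟩ := mem_Q.1 h6
    exact hnew i hi.symm)
  exact ⟨c', hc', hw⟩

lemma Auto.fix_sw (hn : 5 ≤ n) (h : Auto n V φ ψ) (x : ZMod n ≃ V)
    (hfix : ∀ k, φ (Q x k) = Q x k) : ∀ k, φ (Q (sw x) k) = Q (sw x) k := by
  have n1 := neg_one_ne_zero hn
  have n2 := neg_one_ne_one hn
  have n3 := neg_one_ne_two hn
  have n4 := neg_one_ne_three hn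
  have n5 := two_ne_one hn
  have n6 := three_ne_one hn
  have n7 := three_ne_two hn
  have n8 := two_ne' hn
  have n9 := three_ne' hn
  have n10 := one_ne' hn
  have hu1 : Q (sw x) (-1) = insert s(x 0, x 2) (M x (-1) 1) := by
    rw [Q_eq_insert (sw x) n2, ed_sw_one hn, M_sw hn]
  have hu0 : Q (sw x) 1 = insert s(x (-1), x 1) (M x (-1) 1) := by
    rw [Q_eq_insert' (sw x) n2, ed_sw_neg_one hn, M_sw hn]
  have new0 : ∀ j, s(x (-1), x 1) ≠ ed x j := by
    refine new_edge hn x n2 ?_ ?_
    · rw [neg_add_cancel]; exact n10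
    · rw [show (1 : ZMod n) + 1 = 2 by ring]; exact n3
  have new1 : ∀ j, s(x 0, x 2) ≠ ed x j := by
    refine new_edge hn x n8.symm ?_ ?_
    · rw [zero_add]; exact n5
    · rw [show (2 : ZMod n) + 1 = 3 by ring]; exact n9.symm
  have new2 : ∀ j, s(x (-1), x 2) ≠ ed x j := by
    refine new_edge hn x n3 ?_ ?_
    · rw [neg_add_cancel]; exact n8
    · rw [show (2 : ZMod n) + 1 = 3 by ring]; exact n4
  have new3 : ∀ j, s(x (-1), x 2) ≠ ed (sw x) j := by
    have := new_edge hn (sw x) (k := -1) (l := 2) n3 (by rw [neg_add_cancel]; exact n8)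
      (by rw [show (2 : ZMod n) + 1 = 3 by ring]; exact n4)
    rw [sw_other x n1 n2, sw_other x n8 n5] at this
    exact this
  have e01 : (-1 : ZMod n) + 1 = 0 := neg_add_cancel 1
  have e12 : (1 : ZMod n) + 1 = 2 := by ring
  have e23 : (2 : ZMod n) + 1 = 3 := by ring
  obtain ⟨a', ha', hφa⟩ := h.fix_pair hn x hfix n2 (c := s(x 0, x 2))
    (Or.inr (by rw [e01, e12])) new1
  obtain ⟨a'', ha'', hφa''⟩ := h.fix_pair hn x hfix n2 (c := s(x (-1), x 1)) (Or.inl rfl) new0
  obtain ⟨c', hc', hφc⟩ := h.fix_pair hn x hfix n3 (c := s(x (-1), x 2)) (Or.inl rfl) new2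
  rw [e01, e12] at ha' ha''
  rw [e01, e23] at hc'
  -- the second common neighbour
  have hrP : IsP n V (insert s(x (-1), x 2) (M (sw x) (-1) 2)) := by
    have := (switch_isP hn (sw x) n3).1
    rw [sw_other x n1 n2, sw_other x n8 n5] at this
    exact this
  have hr1 : Ad n (insert s(x 0, x 2) (M x (-1) 1)) (insert s(x (-1), x 2) (M (sw x) (-1) 2)) := by
    rw [← hu1]
    exact (switch_Ad hn (sw x) n3 new3).1
  have hr2 : Ad n (insert s(x (-1), x 2) (M x (-1) 2))
      (insert s(x (-1), x 2) (M (sw x) (-1) 2)) := by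
    rw [M3_b hn, M3_c hn, insert_comm, insert_comm s(x (-1), x 2)]
    apply Ad_insert
    · rw [card_insert_of_notMem, card_M3 hn]
      · omega
      · rw [mem_M3 hn]
        rintro ⟨j, _, _, _, hj⟩
        exact new2 j hj.symm
    · exact (new1 1).symm
  have hv0P : IsP n V (insert s(x (-1), x 2) (M x (-1) 2)) := (switch_isP hn x n3).1
  have hkey : a' = s(x 0, x 2) ∧ c' = s(x (-1), x 2) := by
    by_contra hnot
    have g1 := h.ad _ _ (by rw [← hu1]; exact isP_Q _ _) hrP hr1
    have g2 := h.ad _ _ hv0P hrP hr2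
    rw [hφa] at g1
    rw [hφc] at g2
    have g3 := only_common hn x ha' hc' hnot (h.isP _ hrP) g1 g2
    rw [← hfix (-1)] at g3
    have g4 := h.inj hrP (isP_Q x (-1)) g3
    have g5 : s(x (-1), x 2) ∈ Q x (-1) := by
      rw [← g4]
      exact mem_insert_self _ _
    obtain ⟨i, _, hi⟩ := mem_Q.1 g5
    exact new2 i hi.symm
  have hf1 : φ (Q (sw x) (-1)) = Q (sw x) (-1) := by
    rw [hu1, hφa, hkey.1]
  have hf2 : φ (Q (sw x) 1) = Q (sw x) 1 := by
    rcases ha'' with hh | hh
    · rw [hu0, hφa'', hh]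
    · exfalso
      have g1 : φ (Q (sw x) 1) = φ (Q (sw x) (-1)) := by
        rw [hf1, hu0, hφa'', hh, hu1]
      have g2 := h.inj (isP_Q _ _) (isP_Q _ _) g1
      rw [Q_inj hn] at g2
      exact n2 g2.symm
  obtain ⟨τ, hτ, hd⟩ := h.tau hn (sw x) (sw x) hf1
  have t1 : τ (-1) = -1 := by
    have := hτ (-1)
    rw [hf1] at this
    exact ((Q_inj hn).1 this).symm
  have t2 : τ 1 = 1 := by
    have := hτ 1
    rw [hf2] at this
    exact ((Q_inj hn).1 this).symm
  intro k
  rw [hτ]
  rcases hd with hd | hd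
  · have h0 := hd (-1)
    rw [t1] at h0
    have h1 : τ 0 = 0 := by linear_combination -h0
    rw [hd k, h1, zero_add]
  · exfalso
    have h0 := hd (-1)
    rw [t1] at h0
    have h1 := hd 1
    rw [t2] at h1
    apply four_ne' hn
    linear_combination h1 - h0

/-- the action of a permutation on edge sets -/
def act (σ : Equiv.Perm V) (A : Finset (Sym2 V)) : Finset (Sym2 V) := A.image (Sym2.map σ)

lemma act_Q (σ : Equiv.Perm V) (x : ZMod n ≃ V) (k : ZMod n) :
    act σ (Q x k) = Q (x.trans σ) k := by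
  unfold act Q
  rw [image_image]
  rfl

lemma act_mul (σ τ : Equiv.Perm V) (A : Finset (Sym2 V)) : act (σ * τ) A = act σ (act τ A) := by
  unfold act
  rw [image_image, ← Sym2.map_comp]
  rfl

lemma act_one (A : Finset (Sym2 V)) : act (1 : Equiv.Perm V) A = A := by
  unfold act
  have : Sym2.map ((1 : Equiv.Perm V) : V → V) = id := by
    rw [Equiv.Perm.coe_one, Sym2.map_id]
  rw [this, image_id]

lemma act_isP (σ : Equiv.Perm V) {A : Finset (Sym2 V)} (h : IsP n V A) : IsP n V (act σ A) := by
  obtain ⟨x, k, rfl⟩ := h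
  rw [act_Q]
  exact isP_Q _ _

lemma act_Ad (σ : Equiv.Perm V) {A B : Finset (Sym2 V)} (h : Ad n A B) :
    Ad n (act σ A) (act σ B) := by
  unfold Ad act at *
  rw [← image_inter _ _ (Sym2.map.injective σ.injective),
    card_image_of_injective _ (Sym2.map.injective σ.injective)]
  exact h

lemma rot_pow (i : ℕ) (j : ZMod n) : ((Equiv.addLeft (1 : ZMod n)) ^ i) j = (i : ZMod n) + j := by
  induction i with
  | zero => simp
  | succ i ih =>
    rw [pow_succ', Equiv.Perm.mul_apply, ih, Equiv.coe_addLeft]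
    push_cast
    ring

lemma closure_rot_swap (hn : 5 ≤ n) :
    Subgroup.closure ({Equiv.addLeft (1 : ZMod n), Equiv.swap 0 1} : Set (Equiv.Perm (ZMod n)))
      = ⊤ := by
  have h1 : (Equiv.addLeft (1 : ZMod n)).IsCycle := by
    refine ⟨0, ?_, ?_⟩
    · show (1 : ZMod n) + 0 ≠ 0
      rw [add_zero]
      exact one_ne' hn
    · intro y _
      refine ⟨(y.val : ℤ), ?_⟩
      rw [zpow_natCast, rot_pow, ZMod.natCast_zmod_val, add_zero]
  have h2 : (Equiv.addLeft (1 : ZMod n)).support = univ := by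
    ext j
    rw [Equiv.Perm.mem_support, Equiv.coe_addLeft]
    simp only [mem_univ, iff_true]
    intro h
    apply one_ne' hn
    linear_combination h
  have h3 := Equiv.Perm.closure_cycle_adjacent_swap h1 h2 0
  have e : (Equiv.addLeft (1 : ZMod n)) 0 = 1 := by simp
  rw [e] at h3
  exact h3

lemma Auto.fix_all (hn : 5 ≤ n) (h : Auto n V φ ψ) (x : ZMod n ≃ V)
    (hfix : ∀ k, φ (Q x k) = Q x k) : ∀ (y : ZMod n ≃ V) (k : ZMod n), φ (Q y k) = Q y k := by
  have hmain : ∀ π : Equiv.Perm (ZMod n), ∀ x : ZMod n ≃ V, (∀ k, φ (Q x k) = Q x k) ↔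
      ∀ k, φ (Q (π.trans x) k) = Q (π.trans x) k := by
    intro π
    have hπ : π ∈ Subgroup.closure
        ({Equiv.addLeft (1 : ZMod n), Equiv.swap 0 1} : Set (Equiv.Perm (ZMod n))) := by
      rw [closure_rot_swap hn]
      exact Subgroup.mem_top π
    induction hπ using Subgroup.closure_induction with
    | mem π hπ =>
      intro x
      rcases hπ with rfl | hπ
      · constructor
        · intro hx k
          rw [Q_trans_add]
          exact hx _
        · intro hx k
          have := hx (k - 1)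
          rw [Q_trans_add, show (1 : ZMod n) + (k - 1) = k by ring] at this
          exact this
      · rw [Set.mem_singleton_iff] at hπ
        subst hπ
        constructor
        · intro hx
          exact h.fix_sw hn x hx
        · intro hx
          have h2 := h.fix_sw hn _ hx
          have e : sw ((Equiv.swap (0 : ZMod n) 1).trans x) = x := by
            unfold sw
            ext j
            simp
          rw [e] at h2
          exact h2
    | one =>
      intro x
      have e : (1 : Equiv.Perm (ZMod n)).trans x = x := by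
        ext j
        rfl
      rw [e]
    | mul π₁ π₂ _ _ h1 h2 =>
      intro x
      have e : (π₁ * π₂).trans x = π₂.trans (π₁.trans x) := by
        ext j
        rfl
      rw [e, h1 x, h2 (π₁.trans x)]
    | inv π _ h1 =>
      intro x
      have e : π.trans (π⁻¹.trans x) = x := by
        ext j
        show x (π.symm (π j)) = x j
        rw [Equiv.symm_apply_apply]
      rw [h1 (π⁻¹.trans x), e]
  intro y
  have e : y = (y.trans x.symm).trans x := by
    ext j
    simp
  rw [e]
  exact (hmain _ x).1 hfix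

/-- **every automorphism is induced by a permutation** -/
theorem Auto.induced (hn : 5 ≤ n) (h : Auto n V φ ψ) (x : ZMod n ≃ V) :
    ∃ σ : Equiv.Perm V, ∀ A, IsP n V A → φ A = act σ A := by
  obtain ⟨x', hx'⟩ := h.exists_x' hn x
  set σ : Equiv.Perm V := x.symm.trans x' with hσ
  have h' : Auto n V (fun A => act σ⁻¹ (φ A)) (fun A => ψ (act σ A)) := by
    refine ⟨?_, ?_, ?_, ?_, ?_, ?_⟩
    · intro A hA
      exact act_isP _ (h.isP A hA)
    · intro A hA
      exact h.isP' _ (act_isP _ hA)
    · intro A hA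
      show ψ (act σ (act σ⁻¹ (φ A))) = A
      rw [← act_mul, mul_inv_cancel, act_one, h.left A hA]
    · intro A hA
      show act σ⁻¹ (φ (ψ (act σ A))) = A
      rw [h.right _ (act_isP _ hA), ← act_mul, inv_mul_cancel, act_one]
    · intro A B hA hB hAB
      exact act_Ad _ (h.ad _ _ hA hB hAB)
    · intro A B hA hB hAB
      exact h.ad' _ _ (act_isP _ hA) (act_isP _ hB) (act_Ad _ hAB)
  have hfix : ∀ k, act σ⁻¹ (φ (Q x k)) = Q x k := by
    intro k
    rw [hx', act_Q]
    congr 1
    ext j
    show σ.symm (x' j) = x j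
    rw [hσ]
    simp
  have hall := h'.fix_all hn x hfix
  refine ⟨σ, ?_⟩
  rintro A ⟨y, k, rfl⟩
  have h1 : act σ⁻¹ (φ (Q y k)) = Q y k := hall y k
  have h2 := congrArg (act σ) h1
  rw [← act_mul, mul_inv_cancel, act_one] at h2
  exact h2

/-- a permutation acting trivially is trivial -/
theorem act_inj (hn : 5 ≤ n) (x : ZMod n ≃ V) (σ : Equiv.Perm V)
    (h : ∀ A, IsP n V A → act σ A = A) : σ = 1 := by
  have hQ : ∀ k, Q (x.trans σ) k = Q x k := by
    intro k
    rw [← act_Q]
    exact h _ (isP_Q x k)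
  have hed : ∀ l, ed (x.trans σ) l = ed x l := by
    intro l
    have hl : l ≠ l + 1 := by
      intro h
      apply one_ne' hn
      linear_combination -h
    have h1 : ed (x.trans σ) l ∈ Q x (l + 1) := by
      rw [← hQ]
      exact (ed_mem_Q hn).2 hl
    have h2 : ed (x.trans σ) l ∉ Q x l := by
      rw [← hQ, ed_mem_Q hn]
      exact fun h => h rfl
    rw [Q_eq_insert' x hl, mem_insert] at h1
    rcases h1 with h1 | h1
    · exact h1
    · exfalso
      apply h2
      rw [Q_eq_insert x hl]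
      exact mem_insert_of_mem h1
  ext v
  obtain ⟨l, rfl⟩ := x.surjective v
  show σ (x l) = x l
  have h1 : σ (x l) ∈ ed x l := by
    rw [← hed]
    exact Sym2.mem_mk_left _ _
  have h2 : σ (x l) ∈ ed x (l - 1) := by
    rw [← hed]
    show σ (x l) ∈ s(σ (x (l - 1)), σ (x (l - 1 + 1)))
    rw [show l - 1 + 1 = l by ring]
    exact Sym2.mem_mk_right _ _
  unfold ed at h1 h2
  rw [Sym2.mem_iff] at h1 h2
  rcases h1 with h1 | h1
  · exact h1
  · rcases h2 with h2 | h2
    · exfalso
      rw [h1] at h2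
      have := x.injective h2
      apply two_ne' hn
      linear_combination this
    · rw [h2]
      congr 1
      ring

end Pool.Agent.R39.PathAut
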